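import Pool.Agent.V5helper99.DC.Defs

/-!
# Project DC, job J7: a vertex of the cube in the convex hull of a family of vertices
-/

namespace DC99

open Module

private lemma J7_val {n : ℕ} (A : Finset (Fin n)) (i : Fin n) :
    (pt A) i = if i ∈ A then (-1 : ℝ) else 1 := rfl

private lemma J7_le {n : ℕ} (A B : Finset (Fin n)) (i : Fin n) : (pt A) i * (pt B) i ≤ 1 := by
  rw [J7_val, J7_val]
  split_ifs <;> norm_num

private lemma J7_self {n : ℕ} (A : Finset (Fin n)) : ∑ i, (pt A) i * (pt A) i = n := by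
  have h : ∀ i, (pt A) i * (pt A) i = 1 := by
    intro i
    rw [J7_val]
    split_ifs <;> norm_num
  rw [Finset.sum_congr rfl fun i _ => h i]
  simp

private lemma J7_lt {n : ℕ} {A B : Finset (Fin n)} (h : B ≠ A) :
    ∑ i, (pt A) i * (pt B) i < n := by
  have h1 : ∃ i, ¬ (i ∈ B ↔ i ∈ A) := by
    by_contra hc
    push Not at hc
    exact h (Finset.ext hc)
  obtain ⟨i, hi⟩ := h1
  have h2 : ∑ i : Fin n, (1 : ℝ) = n := by simp
  rw [← h2]
  refine Finset.sum_lt_sum (fun j _ => J7_le A B j) ⟨i, Finset.mem_univ _, ?_⟩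
  rw [J7_val, J7_val]
  by_cases hA : i ∈ A <;> by_cases hB : i ∈ B
  · exact absurd (iff_of_true hB hA) hi
  · rw [if_pos hA, if_neg hB]; norm_num
  · rw [if_neg hA, if_pos hB]; norm_num
  · exact absurd (iff_of_false hB hA) hi

theorem t_J7 {n : ℕ} (G : Set (Finset (Fin n))) (A : Finset (Fin n)) (h : pt A ∈ hull G) :
    A ∈ G := by
  by_contra hA
  have hlin : IsLinearMap ℝ (fun x : E n => ∑ i, (pt A) i * x i) := by
    constructor
    · intro x y
      rw [← Finset.sum_add_distrib]
      refine Finset.sum_congr rfl fun i _ => ?_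
      rw [PiLp.add_apply]
      ring
    · intro c x
      rw [smul_eq_mul, Finset.mul_sum]
      refine Finset.sum_congr rfl fun i _ => ?_
      rw [PiLp.smul_apply, smul_eq_mul]
      ring
  have hcv := convex_halfSpace_lt hlin (n : ℝ)
  have hsub : pt '' G ⊆ {w : E n | ∑ i, (pt A) i * w i < n} := by
    rintro _ ⟨B, hB, rfl⟩
    exact J7_lt fun h => hA (h ▸ hB)
  have h1 := convexHull_min hsub hcv h
  have h2 : ∑ i, (pt A) i * (pt A) i < n := h1
  rw [J7_self] at h2
  exact lt_irrefl _ h2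

end DC99
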